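import Pool.Agent.H.MP_6c6198_al.Semi

set_option autoImplicit false

open MonoidAlgebra

namespace Pool.Agent.H.MP_6c6198

/-- The group `Heis(ℚ) ⋊ ℤ`: the element `(c, a, b, k)` acts on functions `F` on `ℚ` by
`F ↦ (y ↦ e(c + a y) F((y - b) / 2 ^ k))`. -/
@[ext] structure Hg where
  c : ℚ
  a : ℚ
  b : ℚ
  k : ℤ

namespace Hg

instance : Mul Hg := ⟨fun x y => ⟨x.c + y.c - x.b * y.a * (2 : ℚ) ^ (-x.k),
  x.a + y.a * (2 : ℚ) ^ (-x.k), x.b + y.b * (2 : ℚ) ^ x.k, x.k + y.k⟩⟩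
instance : One Hg := ⟨⟨0, 0, 0, 0⟩⟩
instance : Inv Hg := ⟨fun x => ⟨-x.c - x.a * x.b, -(x.a * (2 : ℚ) ^ x.k),
  -(x.b * (2 : ℚ) ^ (-x.k)), -x.k⟩⟩

theorem mul_def (x y : Hg) : x * y = ⟨x.c + y.c - x.b * y.a * (2 : ℚ) ^ (-x.k),
  x.a + y.a * (2 : ℚ) ^ (-x.k), x.b + y.b * (2 : ℚ) ^ x.k, x.k + y.k⟩ := rfl
theorem one_def : (1 : Hg) = ⟨0, 0, 0, 0⟩ := rfl
theorem inv_def (x : Hg) : x⁻¹ = ⟨-x.c - x.a * x.b, -(x.a * (2 : ℚ) ^ x.k),
  -(x.b * (2 : ℚ) ^ (-x.k)), -x.k⟩ := rfl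

theorem two_zpow_mul (m n : ℤ) : (2 : ℚ) ^ (m + n) = 2 ^ m * 2 ^ n :=
  zpow_add₀ two_ne_zero m n

theorem two_cancel (m : ℤ) : (2 : ℚ) ^ m * 2 ^ (-m) = 1 := by
  rw [← zpow_add₀ two_ne_zero, add_neg_cancel, zpow_zero]

instance : Group Hg := Group.ofLeftAxioms
  (by
    intro x y z
    simp only [mul_def]
    have h1 := two_cancel x.k
    ext
    · simp only [neg_add, two_zpow_mul]
      linear_combination (-(y.b * z.a * (2 : ℚ) ^ (-y.k))) * h1
    · simp only [neg_add, two_zpow_mul]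
      ring
    · simp only [two_zpow_mul]
      ring
    · exact add_assoc _ _ _)
  (by
    intro x
    simp only [mul_def, one_def]
    ext <;> simp)
  (by
    intro x
    simp only [mul_def, one_def, inv_def]
    have h1 := two_cancel x.k
    ext
    · simp only [neg_neg]
      linear_combination (x.a * x.b) * h1
    · simp only [neg_neg]
      ring
    · simp only
      ring
    · exact neg_add_cancel _)

/-- `(c,a,b,k) ↦ k`. -/
def f1 : Hg →* Multiplicative ℤ where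
  toFun x := Multiplicative.ofAdd x.k
  map_one' := rfl
  map_mul' _ _ := rfl

theorem k_eq (x : f1.ker) : (x : Hg).k = 0 := x.2

/-- `(c,a,b,0) ↦ b`. -/
def f2 : f1.ker →* Multiplicative ℚ where
  toFun x := Multiplicative.ofAdd (x : Hg).b
  map_one' := rfl
  map_mul' x y := by
    change Multiplicative.ofAdd ((x : Hg).b + (y : Hg).b * (2 : ℚ) ^ (x : Hg).k) = _
    rw [k_eq, zpow_zero, mul_one]
    rfl

/-- `(c,a,0,0) ↦ a`. -/
def f3 : f2.ker →* Multiplicative ℚ where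
  toFun x := Multiplicative.ofAdd (x : f1.ker).1.a
  map_one' := rfl
  map_mul' x y := by
    change Multiplicative.ofAdd ((x : f1.ker).1.a
      + (y : f1.ker).1.a * (2 : ℚ) ^ (-(x : f1.ker).1.k)) = _
    rw [k_eq, neg_zero, zpow_zero, mul_one]
    rfl

theorem b_eq (x : f2.ker) : (x : f1.ker).1.b = 0 := x.2

theorem a_eq (x : f3.ker) : (x : f2.ker).1.1.a = 0 := x.2

/-- `(c,0,0,0) ↦ c`. -/
def f4 : f3.ker →* Multiplicative ℚ where
  toFun x := Multiplicative.ofAdd (x : f2.ker).1.1.c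
  map_one' := rfl
  map_mul' x y := by
    change Multiplicative.ofAdd ((x : f2.ker).1.1.c + (y : f2.ker).1.1.c
      - (x : f2.ker).1.1.b * (y : f2.ker).1.1.a * (2 : ℚ) ^ (-(x : f2.ker).1.1.k)) = _
    rw [a_eq, mul_zero, zero_mul, sub_zero]
    rfl

theorem f4_injective : Function.Injective f4 := by
  intro x y h
  have h1 : (x : f2.ker).1.1.c = (y : f2.ker).1.1.c := Multiplicative.ofAdd.injective h
  apply Subtype.ext
  apply Subtype.ext
  apply Subtype.ext
  ext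
  · exact h1
  · rw [a_eq, a_eq]
  · rw [b_eq, b_eq]
  · rw [k_eq, k_eq]

theorem solvable : Group.IsSolvable Hg := by
  refine solv_ext f1 (solv_ext f2 (solv_ext f3 ?_ inferInstance) inferInstance) inferInstance
  exact Group.isSolvable_of_isSolvable_injective f4_injective

theorem finiteRank : FR Hg :=
  FR.ext f1 (FR.ext f2 (FR.ext f3 (FR.of_injective f4 f4_injective FR_rat) FR_rat) FR_rat) FR_int

end Hg

/-- `e(x) = exp(2 π i x)`. -/
noncomputable def e (x : ℚ) : ℂ := Complex.exp (x * (2 * Real.pi * Complex.I))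

theorem e_add (x y : ℚ) : e (x + y) = e x * e y := by
  rw [e, e, e, ← Complex.exp_add]
  push_cast
  ring_nf

theorem e_zero : e 0 = 1 := by rw [e]; simp

theorem e_eq_one_iff (x : ℚ) : e x = 1 ↔ ∃ n : ℤ, x = n := by
  rw [e, Complex.exp_eq_one_iff]
  constructor
  · rintro ⟨n, hn⟩
    refine ⟨n, ?_⟩
    have h := mul_right_cancel₀ Complex.two_pi_I_ne_zero hn
    exact_mod_cast h
  · rintro ⟨n, rfl⟩
    exact ⟨n, by push_cast; rfl⟩

theorem e_nat_mul (j : ℕ) (x : ℚ) : e (j * x) = e x ^ j := by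
  induction j with
  | zero => simp [e_zero]
  | succ j ih => rw [Nat.cast_succ, add_mul, one_mul, e_add, ih, pow_succ]

/-- The action on functions. -/
noncomputable def rho : Representation ℤ Hg (ℚ → ℂ) where
  toFun g :=
    { toFun := fun F y => e (g.c + g.a * y) * F ((y - g.b) * (2 : ℚ) ^ (-g.k))
      map_add' := fun F G => by
        funext y
        simp only [Pi.add_apply]
        ring
      map_smul' := fun n F => by
        funext y
        simp only [Pi.smul_apply, eq_intCast, Int.cast_id, zsmul_eq_mul]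
        ring }
  map_one' := by
    ext F y
    change e (0 + 0 * y) * F ((y - 0) * (2 : ℚ) ^ (-0 : ℤ)) = F y
    simp [e_zero]
  map_mul' g h := by
    ext F y
    change e ((g * h).c + (g * h).a * y) * F ((y - (g * h).b) * (2 : ℚ) ^ (-(g * h).k))
      = e (g.c + g.a * y) * (e (h.c + h.a * ((y - g.b) * (2 : ℚ) ^ (-g.k)))
        * F (((y - g.b) * (2 : ℚ) ^ (-g.k) - h.b) * (2 : ℚ) ^ (-h.k)))
    rw [← mul_assoc, ← e_add]
    have h1 := Hg.two_cancel g.k
    simp only [Hg.mul_def]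
    congr 2
    · ring
    · rw [neg_add, Hg.two_zpow_mul]
      linear_combination (-(h.b * (2 : ℚ) ^ (-h.k))) * h1

/-- The space of functions, as a module over the group ring. -/
def Wt : Type := ℚ → ℂ

noncomputable instance : AddCommGroup Wt := inferInstanceAs (AddCommGroup (ℚ → ℂ))

noncomputable instance : Module (MonoidAlgebra ℤ Hg) Wt :=
  Module.compHom (ℚ → ℂ) (rho.asAlgebraHom).toRingHom

theorem smul_def (r : MonoidAlgebra ℤ Hg) (F : Wt) : r • F = rho.asAlgebraHom r F := rfl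

theorem of_smul (g : Hg) (F : Wt) (y : ℚ) :
    (of ℤ Hg g • F : Wt) y = e (g.c + g.a * y) * F ((y - g.b) * (2 : ℚ) ^ (-g.k)) := by
  rw [smul_def, Representation.asAlgebraHom_of]
  rfl

/-- The values of the vector on natural numbers: `w (2^k (2m+1)) = w m / (2^(k+1) (k+1))`. -/
noncomputable def w (n : ℕ) : ℂ :=
  if h : n = 0 then 1
  else w (n / 2 ^ (padicValNat 2 n + 1)) / (2 ^ (padicValNat 2 n + 1) * (padicValNat 2 n + 1))
termination_by n
decreasing_by
  exact Nat.div_lt_self (Nat.pos_of_ne_zero h) (Nat.one_lt_two_pow (Nat.succ_ne_zero _))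

theorem w_zero : w 0 = 1 := by rw [w]; simp

theorem w_rec (k m : ℕ) : w (2 ^ k * (2 * m + 1)) = w m / (2 ^ (k + 1) * (k + 1)) := by
  have h0 : 2 ^ k * (2 * m + 1) ≠ 0 := by positivity
  have h1 : padicValNat 2 (2 ^ k * (2 * m + 1)) = k := by
    rw [padicValNat.mul (by positivity) (by omega), padicValNat.prime_pow,
      padicValNat.eq_zero_of_not_dvd (by omega), add_zero]
  have h2 : 2 ^ k * (2 * m + 1) / 2 ^ (k + 1) = m := by
    rw [pow_succ, Nat.mul_div_mul_left _ _ (by positivity)]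
    omega
  rw [w, dif_neg h0, h1, h2]

/-- The vector. -/
noncomputable def vec : Wt := fun y => if y.den = 1 ∧ 0 ≤ y.num then w y.num.toNat else 0

theorem vec_nat (n : ℕ) : vec (n : ℚ) = w n := by
  simp [vec]

theorem vec_of_not (y : ℚ) (h : ∀ n : ℕ, y ≠ n) : vec y = 0 := by
  rw [vec, if_neg]
  rintro ⟨h1, h2⟩
  refine h y.num.toNat ?_
  have h3 : ((y.num.toNat : ℤ) : ℚ) = y.num := by rw [Int.toNat_of_nonneg h2]
  have h4 : (y.num : ℚ) = y := by
    rw [← Rat.mul_den_eq_num, h1, Nat.cast_one, mul_one]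
  rw [← h4, ← h3]
  norm_cast

theorem vec_ne : vec ≠ 0 := by
  intro h
  have h1 : vec ((0 : ℕ) : ℚ) = 0 := congrFun h _
  rw [vec_nat, w_zero] at h1
  exact one_ne_zero h1

/-- The element `X k` of the group ring. -/
noncomputable def X (k : ℕ) : MonoidAlgebra ℤ Hg :=
  ∑ j ∈ Finset.range (2 ^ (k + 1)), of ℤ Hg ⟨0, j, -1 / 2, -(k + 1)⟩

theorem X_smul (k : ℕ) (y : ℚ) :
    (X k • vec : Wt) y = (∑ j ∈ Finset.range (2 ^ (k + 1)), e y ^ j)
      * vec (2 ^ (k + 1) * y + 2 ^ k) := by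
  have h1 : (X k • vec : Wt) y = ∑ j ∈ Finset.range (2 ^ (k + 1)),
      (of ℤ Hg ⟨0, j, -1 / 2, -(k + 1)⟩ • vec : Wt) y := by
    rw [X, Finset.sum_smul]
    exact Finset.sum_apply y _ _
  rw [h1, Finset.sum_mul]
  refine Finset.sum_congr rfl fun j _ => ?_
  rw [of_smul]
  simp only [zero_add, neg_neg]
  rw [e_nat_mul]
  congr 2
  rw [show ((k : ℤ) + 1) = ((k + 1 : ℕ) : ℤ) by push_cast; ring, zpow_natCast]
  ring

theorem key (k : ℕ) : (k + 1) • (X k • vec) = vec := by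
  funext y
  change (k + 1) • ((X k • vec : Wt) y) = vec y
  rw [X_smul, nsmul_eq_mul]
  have hk : ((k + 1 : ℕ) : ℂ) ≠ 0 := by exact_mod_cast Nat.succ_ne_zero k
  by_cases hz : ∃ n : ℕ, (2 : ℚ) ^ (k + 1) * y + 2 ^ k = n
  · obtain ⟨n, hn⟩ := hz
    by_cases hy : ∃ q : ℤ, y = q
    · obtain ⟨q, rfl⟩ := hy
      have h1 : e (q : ℚ) = 1 := (e_eq_one_iff _).2 ⟨q, rfl⟩
      have h2 : (2 : ℤ) ^ (k + 1) * q + 2 ^ k = n := by exact_mod_cast hn
      have hq : 0 ≤ q := by
        by_contra hq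
        have h3 : q + 1 ≤ 0 := by omega
        have h4 : (0 : ℤ) < 2 ^ k := by positivity
        have h5 : (0 : ℤ) ≤ n := Int.natCast_nonneg n
        rw [pow_succ] at h2
        nlinarith
      obtain ⟨m, rfl⟩ := Int.eq_ofNat_of_zero_le hq
      have h3 : (2 : ℚ) ^ (k + 1) * ((m : ℤ) : ℚ) + 2 ^ k = ((2 ^ k * (2 * m + 1) : ℕ) : ℚ) := by
        push_cast
        ring
      rw [h1, h3, vec_nat, w_rec, Int.cast_natCast, vec_nat]
      simp only [one_pow, Finset.sum_const, Finset.card_range, nsmul_eq_mul, mul_one]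
      push_cast
      have h4 : (2 : ℂ) ^ (k + 1) ≠ 0 := pow_ne_zero _ two_ne_zero
      have h5 : (k : ℂ) + 1 ≠ 0 := by exact_mod_cast Nat.succ_ne_zero k
      field_simp
    · have h1 : e y ≠ 1 := fun h => hy ((e_eq_one_iff y).1 h)
      have h2 : e y ^ (2 ^ (k + 1)) = 1 := by
        rw [← e_nat_mul, e_eq_one_iff]
        refine ⟨(n : ℤ) - 2 ^ k, ?_⟩
        push_cast
        linarith
      have h3 : ∑ j ∈ Finset.range (2 ^ (k + 1)), e y ^ j = 0 := by
        rw [geom_sum_eq h1, h2, sub_self, zero_div]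
      rw [h3, zero_mul, mul_zero, vec_of_not]
      intro n' hn'
      exact hy ⟨n', by rw [hn']; norm_cast⟩
  · have h1 : vec ((2 : ℚ) ^ (k + 1) * y + 2 ^ k) = 0 :=
      vec_of_not _ fun n hn => hz ⟨n, hn⟩
    rw [h1, mul_zero, mul_zero, vec_of_not]
    intro n hn
    apply hz
    refine ⟨2 ^ (k + 1) * n + 2 ^ k, ?_⟩
    rw [hn]
    push_cast
    ring

theorem not_stmt : ¬ Stmt := by
  intro h
  refine contra' h Hg Wt Hg.solvable Hg.finiteRank vec vec_ne ?_
  intro p hp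
  obtain ⟨k, rfl⟩ := Nat.exists_eq_succ_of_ne_zero hp.ne_zero
  exact ⟨X k, key k⟩

end Pool.Agent.H.MP_6c6198
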