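import Mathlib

set_option autoImplicit false

namespace Pool.Agent.H.MP_6c6198

/-- Finite rank: for some `r` every finitely generated subgroup is generated by at most `r`
elements. -/
def FR (H : Type*) [Group H] : Prop :=
  ∃ r : ℕ, ∀ s : Finset H, ∃ t : Finset H,
    t.card ≤ r ∧ Subgroup.closure (t : Set H) = Subgroup.closure (s : Set H)

theorem FR.ext {H Q : Type*} [Group H] [Group Q] (f : H →* Q) (hK : FR f.ker) (hQ : FR Q) :
    FR H := by
  classical
  obtain ⟨r1, h1⟩ := hK
  obtain ⟨r2, h2⟩ := hQ
  refine ⟨r2 + r1, fun s => ?_⟩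
  obtain ⟨t2, ht2c, ht2⟩ := h2 (s.image f)
  have hmap : Subgroup.closure (t2 : Set Q) = (Subgroup.closure (s : Set H)).map f := by
    rw [ht2, MonoidHom.map_closure, Finset.coe_image]
  have hl : ∀ q : Q, ∃ g : H, q ∈ t2 → g ∈ Subgroup.closure (s : Set H) ∧ f g = q := by
    intro q
    by_cases hq : q ∈ t2
    · have : q ∈ (Subgroup.closure (s : Set H)).map f := by
        rw [← hmap]; exact Subgroup.subset_closure hq
      obtain ⟨g, hg, rfl⟩ := this
      exact ⟨g, fun _ => ⟨hg, rfl⟩⟩
    · exact ⟨1, fun h => absurd h hq⟩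
  choose l hl using hl
  set u2 : Finset H := t2.image l with hu2
  have hu2s : Subgroup.closure (u2 : Set H) ≤ Subgroup.closure (s : Set H) := by
    rw [Subgroup.closure_le]
    intro x hx
    simp only [hu2, Finset.coe_image, Set.mem_image, Finset.mem_coe] at hx
    obtain ⟨q, hq, rfl⟩ := hx
    exact (hl q hq).1
  have hu2m : (Subgroup.closure (u2 : Set H)).map f = (Subgroup.closure (s : Set H)).map f := by
    rw [← hmap]
    apply le_antisymm
    · rw [hmap]; exact Subgroup.map_mono hu2s
    · rw [Subgroup.closure_le]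
      intro q hq
      refine ⟨l q, Subgroup.subset_closure ?_, (hl q hq).2⟩
      simp only [hu2, Finset.coe_image]
      exact ⟨q, hq, rfl⟩
  have hc : ∀ g : H, ∃ c : H, g ∈ s → c ∈ Subgroup.closure (u2 : Set H) ∧ f c = f g := by
    intro g
    by_cases hg : g ∈ s
    · have : f g ∈ (Subgroup.closure (u2 : Set H)).map f := by
        rw [hu2m]; exact ⟨g, Subgroup.subset_closure hg, rfl⟩
      obtain ⟨c, hc, he⟩ := this
      exact ⟨c, fun _ => ⟨hc, he⟩⟩
    · exact ⟨1, fun h => absurd h hg⟩
  choose c hc using hc
  set n : H → f.ker := fun g => if h : g ∈ s then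
      ⟨(c g)⁻¹ * g, by rw [MonoidHom.mem_ker, map_mul, map_inv, (hc g h).2, inv_mul_cancel]⟩
    else 1 with hn
  have hnv : ∀ g ∈ s, ((n g : f.ker) : H) = (c g)⁻¹ * g := by
    intro g hg
    simp only [hn, dif_pos hg]
  obtain ⟨t1, ht1c, ht1⟩ := h1 (s.image n)
  set u1 : Finset H := t1.image (fun x : f.ker => (x : H)) with hu1
  have hcl : Subgroup.closure (u1 : Set H)
      = Subgroup.closure ((fun g => (c g)⁻¹ * g) '' (s : Set H)) := by
    have e1 := congrArg (Subgroup.map f.ker.subtype) ht1
    rw [MonoidHom.map_closure, MonoidHom.map_closure] at e1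
    have e2 : (f.ker.subtype '' (t1 : Set f.ker)) = (u1 : Set H) := by
      simp [hu1]
    have e3 : (f.ker.subtype '' ((s.image n : Finset f.ker) : Set f.ker))
        = (fun g => (c g)⁻¹ * g) '' (s : Set H) := by
      rw [Finset.coe_image, Set.image_image]
      apply Set.image_congr
      intro g hg
      exact hnv g hg
    rw [e2, e3] at e1
    exact e1
  refine ⟨u2 ∪ u1, ?_, ?_⟩
  · calc (u2 ∪ u1).card ≤ u2.card + u1.card := Finset.card_union_le _ _
      _ ≤ t2.card + t1.card := by
          have e1 : u2.card ≤ t2.card := Finset.card_image_le (s := t2) (f := l)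
          have e2 : u1.card ≤ t1.card := Finset.card_image_le
          exact Nat.add_le_add e1 e2
      _ ≤ r2 + r1 := Nat.add_le_add ht2c ht1c
  · apply le_antisymm
    · rw [Subgroup.closure_le, Finset.coe_union]
      apply Set.union_subset
      · exact Subgroup.subset_closure.trans hu2s
      · refine Subgroup.subset_closure.trans ?_
        rw [hcl]
        have : Subgroup.closure ((fun g => (c g)⁻¹ * g) '' (s : Set H))
            ≤ Subgroup.closure (s : Set H) := by
          rw [Subgroup.closure_le]
          rintro _ ⟨g, hg, rfl⟩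
          exact mul_mem (inv_mem (hu2s (hc g hg).1)) (Subgroup.subset_closure hg)
        exact this
    · rw [Subgroup.closure_le]
      intro g hg
      have h2 : c g ∈ Subgroup.closure ((u2 ∪ u1 : Finset H) : Set H) :=
        Subgroup.closure_mono (by rw [Finset.coe_union]; exact Set.subset_union_left) (hc g hg).1
      have h3 : (c g)⁻¹ * g ∈ Subgroup.closure ((u2 ∪ u1 : Finset H) : Set H) := by
        have : (c g)⁻¹ * g ∈ Subgroup.closure (u1 : Set H) := by
          rw [hcl]; exact Subgroup.subset_closure ⟨g, hg, rfl⟩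
        exact Subgroup.closure_mono (by rw [Finset.coe_union]; exact Set.subset_union_right) this
      have h4 := mul_mem h2 h3
      rwa [mul_inv_cancel_left] at h4

theorem FR.of_subsingleton {H : Type*} [Group H] [Subsingleton H] : FR H := by
  refine ⟨0, fun s => ⟨∅, le_rfl, ?_⟩⟩
  exact Subsingleton.elim _ _

theorem FR.of_injective {H Q : Type*} [Group H] [Group Q] (f : H →* Q)
    (hf : Function.Injective f) (hQ : FR Q) : FR H := by
  have : Subsingleton f.ker := by
    rw [(MonoidHom.ker_eq_bot_iff f).2 hf]
    infer_instance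
  exact FR.ext f FR.of_subsingleton hQ

theorem FR_rat : FR (Multiplicative ℚ) := by
  classical
  refine ⟨1, fun s => ?_⟩
  set d : ℕ := ∏ q ∈ s, (Multiplicative.toAdd q).den with hd
  have hd0 : (d : ℚ) ≠ 0 := by
    have : d ≠ 0 := by
      rw [hd]; exact Finset.prod_ne_zero_iff.2 fun q _ => (Multiplicative.toAdd q).den_ne_zero
    exact_mod_cast this
  let g : Multiplicative ℤ →* Multiplicative ℚ :=
    AddMonoidHom.toMultiplicative
      { toFun := fun n => (n : ℚ) / d
        map_zero' := by simp
        map_add' := fun x y => by push_cast; ring }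
  have hs : Subgroup.closure (s : Set (Multiplicative ℚ)) ≤ g.range := by
    rw [Subgroup.closure_le]
    intro q hq
    obtain ⟨e, he⟩ : (Multiplicative.toAdd q).den ∣ d := Finset.dvd_prod_of_mem _ hq
    refine ⟨Multiplicative.ofAdd ((Multiplicative.toAdd q).num * e), ?_⟩
    apply Multiplicative.toAdd.injective
    change (((Multiplicative.toAdd q).num * (e : ℤ) : ℤ) : ℚ) / d = Multiplicative.toAdd q
    rw [div_eq_iff hd0]
    have h1 : ((Multiplicative.toAdd q).num : ℚ)
        = Multiplicative.toAdd q * (Multiplicative.toAdd q).den :=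
      (Rat.mul_den_eq_num _).symm
    push_cast
    rw [h1, he]
    push_cast
    ring
  have hc : IsCyclic ((Subgroup.closure (s : Set (Multiplicative ℚ))).comap g) := inferInstance
  obtain ⟨a, ha⟩ := (isCyclic_iff_exists_zpowers_eq_top (α :=
    ((Subgroup.closure (s : Set (Multiplicative ℚ))).comap g))).1 hc
  have h2 : (Subgroup.closure (s : Set (Multiplicative ℚ))).comap g
      = Subgroup.zpowers (a : Multiplicative ℤ) := by
    have := congrArg (Subgroup.map ((Subgroup.closure (s : Set (Multiplicative ℚ))).comap g).subtype) ha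
    rw [MonoidHom.map_zpowers, ← MonoidHom.range_eq_map, Subgroup.range_subtype] at this
    exact this.symm
  refine ⟨{g a}, by simp, ?_⟩
  have h3 : ((Subgroup.closure (s : Set (Multiplicative ℚ))).comap g).map g
      = Subgroup.closure (s : Set (Multiplicative ℚ)) := Subgroup.map_comap_eq_self hs
  have h4 := congrArg (Subgroup.map g) h2
  rw [h3, MonoidHom.map_zpowers, Subgroup.zpowers_eq_closure] at h4
  rw [Finset.coe_singleton]
  exact h4.symm

theorem FR_int : FR (Multiplicative ℤ) :=
  FR.of_injective (AddMonoidHom.toMultiplicative (Int.castAddHom ℚ))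
    (fun x y h => by
      apply Multiplicative.toAdd.injective
      have h' : ((Multiplicative.toAdd x : ℤ) : ℚ) = ((Multiplicative.toAdd y : ℤ) : ℚ) :=
        congrArg Multiplicative.toAdd h
      exact_mod_cast h') FR_rat

theorem solv_ext {H Q : Type*} [Group H] [Group Q] (f : H →* Q) (hK : Group.IsSolvable f.ker)
    (hQ : Group.IsSolvable Q) : Group.IsSolvable H :=
  Group.isSolvable_of_ker_le_range f.ker.subtype f (by rw [Subgroup.range_subtype])

end Pool.Agent.H.MP_6c6198
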