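import Pool.Agent.H.MP_6c6198_al.Rank

set_option autoImplicit false

open MonoidAlgebra

namespace Pool.Agent.H.MP_6c6198

section
variable (H V : Type) [Group H] [AddCommGroup V] [Module (MonoidAlgebra ℤ H) V]

/-- The action of `H` on the module `V` by automorphisms. -/
noncomputable def act : H →* MulAut (Multiplicative V) where
  toFun h := AddEquiv.toMultiplicative
    { toFun := fun x => of ℤ H h • x
      invFun := fun x => of ℤ H h⁻¹ • x
      left_inv := fun x => by
        change of ℤ H h⁻¹ • of ℤ H h • x = x
        rw [smul_smul, ← map_mul, inv_mul_cancel, map_one, one_smul]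
      right_inv := fun x => by
        change of ℤ H h • of ℤ H h⁻¹ • x = x
        rw [smul_smul, ← map_mul, mul_inv_cancel, map_one, one_smul]
      map_add' := fun x y => smul_add _ _ _ }
  map_one' := by
    ext x
    apply Multiplicative.toAdd.injective
    change of ℤ H (1 : H) • Multiplicative.toAdd x = Multiplicative.toAdd x
    rw [map_one, one_smul]
  map_mul' g h := by
    ext x
    apply Multiplicative.toAdd.injective
    change of ℤ H (g * h) • Multiplicative.toAdd x
      = of ℤ H g • of ℤ H h • Multiplicative.toAdd x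
    rw [map_mul, mul_smul]

theorem act_apply (h : H) (x : V) :
    act H V h (Multiplicative.ofAdd x) = Multiplicative.ofAdd (of ℤ H h • x) := rfl

end

/-- The statement of the problem. -/
def Stmt : Prop :=
  ∀ (G : Type) [Group G] (A : Subgroup G) [A.Normal],
      A ≠ ⊥ →
      (∀ x ∈ A, ∀ y ∈ A, x * y = y * x) →
      (∀ N : Subgroup G, N.Normal → N ≤ A → N = ⊥ ∨ N = A) →
      Group.IsSolvable (G ⧸ A) →
      (∃ r : ℕ, ∀ s : Finset (G ⧸ A), ∃ t : Finset (G ⧸ A),
          t.card ≤ r ∧ Subgroup.closure (t : Set (G ⧸ A)) = Subgroup.closure (s : Set (G ⧸ A))) →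
      ∃ p : ℕ, p.Prime ∧ ∀ a ∈ A, a ^ p = 1

open SemidirectProduct in
theorem contra (h : Stmt) (H V : Type) [Group H] [AddCommGroup V]
    [Module (MonoidAlgebra ℤ H) V] (hs : Group.IsSolvable H) (hr : FR H)
    [IsSimpleModule (MonoidAlgebra ℤ H) V]
    (hdiv : ∀ p : ℕ, p.Prime → ∀ x : V, ∃ y : V, p • y = x) : False := by
  let G := Multiplicative V ⋊[act H V] H
  let A : Subgroup G := (rightHom : G →* H).ker
  have hmemA : ∀ g : G, g ∈ A ↔ g.right = 1 := fun g => Iff.rfl
  have hform : ∀ g ∈ A, g = inl g.left := by
    intro g hg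
    apply SemidirectProduct.ext
    · rfl
    · exact (hmemA g).1 hg
  have hinlA : ∀ x : Multiplicative V, (inl x : G) ∈ A := fun x => rfl
  have hnt : Nontrivial V := IsSimpleModule.nontrivial (MonoidAlgebra ℤ H) V
  obtain ⟨x0, hx0⟩ := exists_ne (0 : V)
  suffices key : ∃ p : ℕ, p.Prime ∧ ∀ a ∈ A, a ^ p = 1 by
    obtain ⟨p, hp, hpA⟩ := key
    obtain ⟨y, hy⟩ := hdiv p hp x0
    apply hx0
    have h1 := hpA (inl (Multiplicative.ofAdd y)) (hinlA _)
    rw [← map_pow] at h1
    have h2 : (Multiplicative.ofAdd y) ^ p = 1 := inl_injective h1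
    rw [← ofAdd_nsmul] at h2
    have h3 : p • y = 0 := Multiplicative.ofAdd.injective h2
    rw [← hy, h3]
  refine h G A ?_ ?_ ?_ ?_ ?_
  · intro hb
    have h1 : (inl (Multiplicative.ofAdd x0) : G) ∈ (⊥ : Subgroup G) := by
      rw [← hb]; exact hinlA _
    rw [Subgroup.mem_bot] at h1
    have h2 : Multiplicative.ofAdd x0 = 1 := inl_injective (h1.trans (map_one _).symm)
    exact hx0 (Multiplicative.ofAdd.injective h2)
  · intro x hx y hy
    rw [hform x hx, hform y hy, ← map_mul, ← map_mul, mul_comm]
  · intro N hN hNA
    let S : Submodule (MonoidAlgebra ℤ H) V :=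
      { carrier := {x | (inl (Multiplicative.ofAdd x) : G) ∈ N}
        add_mem' := by
          intro x y hx hy
          change (inl (Multiplicative.ofAdd (x + y)) : G) ∈ N
          rw [ofAdd_add, map_mul]
          exact mul_mem hx hy
        zero_mem' := by
          change (inl (Multiplicative.ofAdd (0 : V)) : G) ∈ N
          rw [ofAdd_zero, map_one]
          exact one_mem _
        smul_mem' := by
          intro r x hx
          change (inl (Multiplicative.ofAdd (r • x)) : G) ∈ N
          induction r using MonoidAlgebra.induction_on with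
          | of g =>
            have h1 := hN.conj_mem _ hx (inr g)
            rw [← map_inv, ← inl_aut] at h1
            exact h1
          | add a b ha hb =>
            rw [add_smul, ofAdd_add, map_mul]
            exact mul_mem ha hb
          | smul n a ha =>
            rw [smul_assoc, ofAdd_zsmul, map_zpow]
            exact zpow_mem ha _ }
    rcases eq_bot_or_eq_top S with hS | hS
    · left
      rw [eq_bot_iff]
      intro g hg
      have h1 := hform g (hNA hg)
      have h2 : Multiplicative.toAdd g.left ∈ S := by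
        change (inl (Multiplicative.ofAdd (Multiplicative.toAdd g.left)) : G) ∈ N
        rw [ofAdd_toAdd, ← h1]
        exact hg
      rw [hS, Submodule.mem_bot] at h2
      have h3 : g.left = 1 := Multiplicative.toAdd.injective h2
      rw [Subgroup.mem_bot, h1, h3, map_one]
    · right
      refine le_antisymm hNA ?_
      intro g hg
      have h1 := hform g hg
      have h2 : Multiplicative.toAdd g.left ∈ S := by rw [hS]; trivial
      have h3 : (inl (Multiplicative.ofAdd (Multiplicative.toAdd g.left)) : G) ∈ N := h2
      rw [ofAdd_toAdd, ← h1] at h3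
      exact h3
  · exact Group.isSolvable_of_isSolvable_injective
      (f := QuotientGroup.kerLift (rightHom : G →* H)) (QuotientGroup.kerLift_injective _)
  · exact FR.of_injective (QuotientGroup.kerLift (rightHom : G →* H))
      (QuotientGroup.kerLift_injective _) hr

/-- A nonzero divisible cyclic module over the group ring of a soluble group of finite rank
refutes the statement. -/
theorem contra' (h : Stmt) (H W : Type) [Group H] [AddCommGroup W]
    [Module (MonoidAlgebra ℤ H) W] (hs : Group.IsSolvable H) (hr : FR H) (v : W) (hv : v ≠ 0)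
    (hdiv : ∀ p : ℕ, p.Prime → ∃ X : MonoidAlgebra ℤ H, p • (X • v) = v) : False := by
  set R := MonoidAlgebra ℤ H
  let M : Submodule R W := Submodule.span R {v}
  have hfin : Module.Finite R M := by
    rw [Module.Finite.iff_fg]
    exact Submodule.fg_span_singleton v
  have hvM : v ∈ M := Submodule.mem_span_singleton_self v
  have hnt : Nontrivial M := by
    refine ⟨⟨⟨v, hvM⟩, 0, ?_⟩⟩
    intro h0
    exact hv (congrArg Subtype.val h0)
  obtain ⟨m, hm⟩ := IsCoatomic.exists_coatom (Submodule R M)
  have hsimple : IsSimpleModule R (M ⧸ m) := isSimpleModule_iff_isCoatom.2 hm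
  refine contra h H (M ⧸ m) hs hr ?_
  intro p hp x
  obtain ⟨⟨y, hy⟩, rfl⟩ := Submodule.mkQ_surjective m x
  obtain ⟨r, rfl⟩ := Submodule.mem_span_singleton.1 hy
  obtain ⟨X, hX⟩ := hdiv p hp
  refine ⟨m.mkQ ⟨(r * X) • v, Submodule.smul_mem _ _ hvM⟩, ?_⟩
  rw [← map_nsmul]
  congr 1
  apply Subtype.ext
  change p • ((r * X) • v) = r • v
  rw [mul_smul, smul_comm p r, hX]

end Pool.Agent.H.MP_6c6198
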